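import Pool.Agent.N658.TP.Stm5
import Pool.Agent.N163.TP.Therm
import Pool.Agent.TH235.PP.Spec

/-!
# Project TP (helper658), FreeOf (helper232): the partition function by eigenvalues
-/

set_option autoImplicit false

open scoped BigOperators ComplexConjugate InnerProductSpace Matrix ComplexOrder
open scoped Matrix.Norms.L2Operator

noncomputable section

namespace Pool.Agent.N232.TP

open Pool.Agent.Y738.PE Pool.Agent.N658.TP Pool.Agent.N658.TP.Sp

section
variable {n : Type} [Fintype n] [DecidableEq n]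

/-- the trace of the exponential of a Hermitian matrix -/
theorem tr_exp (X : Matrix n n ℂ) (hX : X.IsHermitian) (c : ℝ) :
    (NormedSpace.exp ((c : ℂ) • X)).trace.re = ∑ i, Real.exp (c * hX.eigenvalues i) := by
  set U : Matrix n n ℂ := (hX.eigenvectorUnitary : Matrix n n ℂ) with hU
  have h2 : U * Uᴴ = 1 := by
    have := (Matrix.mem_unitaryGroup_iff (A := U)).1 hX.eigenvectorUnitary.2
    rwa [Matrix.star_eq_conjTranspose] at this
  have h1 : Uᴴ * U = 1 := by
    have := (Matrix.mem_unitaryGroup_iff' (A := U)).1 hX.eigenvectorUnitary.2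
    rwa [Matrix.star_eq_conjTranspose] at this
  have h3 : X = U * Matrix.diagonal (fun i => ((hX.eigenvalues i : ℝ) : ℂ)) * Uᴴ := by
    have := hX.spectral_theorem
    rw [Unitary.conjStarAlgAut_apply] at this
    exact this
  have h3' : (c : ℂ) • X = U * Matrix.diagonal (fun i => ((c * hX.eigenvalues i : ℝ) : ℂ)) * Uᴴ := by
    conv_lhs => rw [h3]
    rw [← Matrix.smul_mul, ← Matrix.mul_smul, ← Matrix.diagonal_smul]
    congr 3
    funext i
    simp
  have hinv : U⁻¹ = Uᴴ := Matrix.inv_eq_right_inv h2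
  have hu : IsUnit U := IsUnit.of_mul_eq_one Uᴴ h2
  have h4 : NormedSpace.exp ((c : ℂ) • X) =
      U * NormedSpace.exp (Matrix.diagonal (fun i => ((c * hX.eigenvalues i : ℝ) : ℂ))) * Uᴴ := by
    rw [h3', ← hinv]
    exact Matrix.exp_conj U _ hu
  have h5 : NormedSpace.exp (fun i => ((c * hX.eigenvalues i : ℝ) : ℂ)) =
      fun i => ((Real.exp (c * hX.eigenvalues i) : ℝ) : ℂ) := by
    rw [Pi.exp_def]
    funext i
    rw [← Complex.exp_eq_exp_ℂ, Complex.ofReal_exp]
  rw [h4, Matrix.exp_diagonal, h5, mul_assoc, Matrix.trace_mul_comm, mul_assoc, h1, mul_one,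
    Matrix.trace_diagonal, Complex.re_sum]
  rfl

end

/-- the Hamiltonian as a matrix -/
theorem mulVec_ham {d R' L : ℕ} [NeZero L] (h : Pool.Agent.TH235.PP.BoxOp d (R' + 1))
    (hL : R' + 1 ≤ L) (φ : Conf d L → ℂ) (s : Conf d L) :
    Matrix.mulVec (Pool.Agent.TH235.PP.ham h L) φ s =
      ham (fun x y : BConf d (R' + 1) => h x y) L φ s := by
  show ∑ t, Pool.Agent.TH235.PP.ham h L s t * φ t = _
  unfold Pool.Agent.TH235.PP.ham ham
  simp only [Matrix.sum_apply, Finset.sum_mul]
  rw [Finset.sum_comm]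
  exact Finset.sum_congr rfl fun u _ =>
    Pool.Agent.N163.TP.term_put hL (fun x y : BConf d (R' + 1) => h x y) u s φ

theorem hamM_eq {d R' L : ℕ} [NeZero L] (h : Pool.Agent.TH235.PP.BoxOp d (R' + 1))
    (hL : R' + 1 ≤ L) :
    hamM (fun x y : BConf d (R' + 1) => h x y) L = Pool.Agent.TH235.PP.ham h L := by
  ext s t
  unfold hamM
  rw [Matrix.of_apply, ← mulVec_ham h hL]
  show ∑ t', Pool.Agent.TH235.PP.ham h L s t' * _ = _
  simp

theorem freeOf : StmFreeOf := by
  intro d R' hd h hh L _ hL β κ hp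
  have hN : Nonempty (Conf d L) := ⟨fun _ => ⟨0, hd⟩⟩
  obtain ⟨h', hh'⟩ : ∃ h' : BConf d (R' + 1) → BConf d (R' + 1) → ℂ, h' = fun x y => h x y :=
    ⟨_, rfl⟩
  have hM : hamM h' L = Pool.Agent.TH235.PP.ham h L := by rw [hh']; exact hamM_eq h hL
  have hH : (hamM h' L).IsHermitian := by
    rw [hM]
    exact Pool.Agent.TH235.PP.ham_herm h hh
  rw [← hh'] at hp
  unfold part gs at hp
  rw [dif_pos hH, dif_pos hH] at hp
  obtain ⟨j, hj⟩ := exists_eq_ciInf_of_finite (f := hH.eigenvalues)
  rw [← hj] at hp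
  refine ⟨fun s => hH.eigenvectorBasis j s, ?_, ?_⟩
  · have h1 := hH.eigenvectorBasis.orthonormal.1 j
    have h2 := EuclideanSpace.norm_sq_eq (hH.eigenvectorBasis j)
    rw [h1] at h2
    unfold nrm
    rw [← h2]
    norm_num
  · have h1 : nrm (fun s => hH.eigenvectorBasis j s) = 1 := by
      have h1 := hH.eigenvectorBasis.orthonormal.1 j
      have h2 := EuclideanSpace.norm_sq_eq (hH.eigenvectorBasis j)
      rw [h1] at h2
      unfold nrm
      rw [← h2]
      norm_num
    have hen : en (fun x y : BConf d (R' + 1) => h x y) L (fun s => hH.eigenvectorBasis j s) =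
        hH.eigenvalues j := by
      unfold en
      have h2 : ∀ s, ham (fun x y : BConf d (R' + 1) => h x y) L
          (fun s => hH.eigenvectorBasis j s) s =
          (hH.eigenvalues j : ℂ) * hH.eigenvectorBasis j s := by
        intro s
        rw [← mulVec_ham h hL, ← hM]
        have h3 := congrFun (hH.mulVec_eigenvectorBasis j) s
        rw [Pi.smul_apply, Complex.real_smul] at h3
        exact h3
      simp only [h2]
      rw [Complex.re_sum]
      unfold nrm at h1
      calc ∑ s, (conj (hH.eigenvectorBasis j s) *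
            ((hH.eigenvalues j : ℂ) * hH.eigenvectorBasis j s)).re
          = ∑ s, hH.eigenvalues j * ‖hH.eigenvectorBasis j s‖ ^ 2 := by
            refine Finset.sum_congr rfl fun s _ => ?_
            have e : conj (hH.eigenvectorBasis j s) *
                ((hH.eigenvalues j : ℂ) * hH.eigenvectorBasis j s) =
                ((hH.eigenvalues j * ‖hH.eigenvectorBasis j s‖ ^ 2 : ℝ) : ℂ) := by
              have h4 := Complex.conj_mul' (hH.eigenvectorBasis j s)
              push_cast
              rw [← h4]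
              ring
            rw [e, Complex.ofReal_re]
        _ = hH.eigenvalues j := by rw [← Finset.mul_sum, h1, mul_one]
    rw [hen, ← hM, tr_exp _ hH (-β)]
    have hpos : 0 < ∑ i, Real.exp (-β * hH.eigenvalues i) :=
      Finset.sum_pos (fun _ _ => Real.exp_pos _) Finset.univ_nonempty
    have e1 : ∑ i, Real.exp (-(β * (hH.eigenvalues i - hH.eigenvalues j))) =
        (∑ i, Real.exp (-β * hH.eigenvalues i)) * Real.exp (β * hH.eigenvalues j) := by
      rw [Finset.sum_mul]
      refine Finset.sum_congr rfl fun i _ => ?_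
      rw [← Real.exp_add]
      congr 1
      ring
    rw [e1] at hp
    have h5 := Real.log_le_log (mul_pos hpos (Real.exp_pos _)) hp
    rwa [Real.log_mul hpos.ne' (Real.exp_pos _).ne', Real.log_exp, Real.log_exp] at h5

end Pool.Agent.N232.TP
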